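import Mathlib
import Pool.Agent.N753.DR.Stm4
import Pool.Agent.N572.DR.KE

/-!
# Project CV, piece MAINC: one exceptional set for a linear system (helper297)
-/

set_option autoImplicit false

namespace Pool.Agent.N297.CV.MainC

open NumberField IsDedekindDomain Module Polynomial Pool.Agent.N753.DR Pool.Agent.N572.DR.KE
open scoped LinearAlgebra.Projectivization

theorem val_fin {L : Type} [Field L] [NumberField L] {y : L} (hy : y ≠ 0) :
    {w : HeightOneSpectrum (𝓞 L) | w.valuation L y < 1}.Finite := by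
  refine (HeightOneSpectrum.Support.finite (𝓞 L) y⁻¹).subset ?_
  intro w hw
  have hw' : w.valuation L y < 1 := hw
  show 1 < w.valuation L y⁻¹
  rw [map_inv₀]
  have h0 : 0 < w.valuation L y := by
    rw [zero_lt_iff]
    exact (Valuation.ne_zero_iff _).2 hy
  exact (one_lt_inv₀ h0).2 hw'

theorem countable_A (K A : Type) [Field K] [NumberField K] [CommRing A] [Algebra K[X] A]
    [Module.Finite K[X] A] : Countable A := by
  have := countable_pol K
  obtain ⟨n, f, hf⟩ := Module.Finite.exists_fin' K[X] A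
  exact hf.countable

theorem nonneg_ht {K : Type} [Field K] [NumberField K] {m : ℕ} (P : ℙ K (Fin m → K)) :
    0 ≤ Height.logHeight P.rep := Height.logHeight_nonneg _

theorem exists_c {K : Type} [Field K] [NumberField K] {m : ℕ} (hm : 1 ≤ m)
    {Q : MvPolynomial (Fin m) K} (hQ : Q ≠ 0) :
    ∃ c : Fin m → K, c ≠ 0 ∧ MvPolynomial.eval c Q ≠ 0 := by
  by_contra hcon
  push Not at hcon
  have h0 : Q * MvPolynomial.X (⟨0, hm⟩ : Fin m) = 0 := by
    apply MvPolynomial.funext
    intro x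
    rw [map_mul, map_zero, MvPolynomial.eval_X]
    by_cases hx : x = 0
    · rw [hx, Pi.zero_apply, mul_zero]
    · rw [hcon x hx, zero_mul]
  rcases mul_eq_zero.1 h0 with h | h
  · exact hQ h
  · exact MvPolynomial.X_ne_zero _ h

theorem mem_ne {K A : Type} [Field K] [CommRing A] [Algebra K A] {m : ℕ} {f : Fin m → A}
    (hf : LinearIndependent K f) {c : Fin m → K} (hc : c ≠ 0) : mem f c ≠ 0 := by
  intro h
  apply hc
  ext i
  exact Fintype.linearIndependent_iff.1 hf c h i

/-- the condition on the equations of a point -/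
def Good {K A : Type} [Field K] [NumberField K] [CommRing A] [Algebra K A] {m : ℕ} (f : Fin m → A)
    {u : ℕ} (g : Fin u → A) : Prop :=
  ∃ (L : Type) (_ : Field L) (_ : NumberField L) (_ : Algebra K L) (ψ : A →ₐ[K] L),
    Function.Surjective ψ ∧ RingHom.ker ψ = Ideal.span (Set.range g) ∧ Wide K (fun i => ψ (f i))

theorem finrank_eq' {K A L : Type} [Field K] [CommRing A] [Algebra K A] [Field L] [Algebra K L]
    (ψ : A →ₐ[K] L) (hψ : Function.Surjective ψ) {I : Ideal A} (h : RingHom.ker ψ = I) :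
    finrank K L = finrank K (A ⧸ I) := by
  subst h
  exact (Ideal.quotientKerAlgEquivOfSurjective hψ).toLinearEquiv.finrank_eq.symm

theorem t (h0 : StmDiag) (h1 : StmCntC) (h2 : StmHtC) (h3 : StmUniC) (h4 : StmZeroC)
    (h5 : StmFldC) (h6 : StmSepC) : StmMainC := by
  classical
  obtain ⟨e, he1, he2, h5⟩ := h5
  refine ⟨e, he1, he2, ?_⟩
  intro K A _ _ _ _ _ _ _ _ _ hdom m hm f hf
  have hA := countable_A K A
  obtain ⟨Q, d, r, hQ0, hQh, hQ1, hQ2⟩ := h3 K A hdom m hm f hf
  obtain ⟨c0, hc0, hc0Q⟩ := exists_c hm hQ0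
  obtain ⟨ν4, C4, hν4, h4'⟩ := h4 K m Q d hQ0 hQh
  have hm0 : (0 : ℝ) < m := by exact_mod_cast hm
  obtain ⟨E0, hE1, hE2⟩ := h0 (ℙ K (Fin m → K))
    (((Σ u : ℕ, (Fin u → A)) × Finset ℕ × ℕ) ⊕ (ℚ ⊕ Unit))
    (fun U P => Height.logHeight P.rep ≤ U) (fun U U' P hUU hP => hP.trans hUU)
    (fun j P => match j with
      | Sum.inl (⟨u, g⟩, S, i) => Good (K := K) f g ∧
          BadC f g S (finrank K (A ⧸ Ideal.span (Set.range g)) - 1 / ((i : ℝ) + 1)) P
      | Sum.inr (Sum.inl G) => (0 ≤ G ∧ (G : ℝ) * e r + 2 * finrank K[X] A < m) ∧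
          MvPolynomial.eval P.rep Q ≠ 0 ∧ SmD f (G : ℝ) P
      | Sum.inr (Sum.inr _) => MvPolynomial.eval P.rep Q = 0) (m : ℝ) hm0 (by
    rintro (⟨⟨u, g⟩, S, i⟩ | G | _)
    · by_cases hg : Good (K := K) f g
      · obtain ⟨L, iL1, iL2, iL3, ψ, hψ1, hψ2, hψ3⟩ := id hg
        obtain ⟨ν, C, hν, hC⟩ := h1 K A L hdom m u f hf ψ g (fun i => by
          have : g i ∈ RingHom.ker ψ := by
            rw [hψ2]; exact Ideal.subset_span ⟨i, rfl⟩
          exact this) hψ3 S (1 / ((i : ℝ) + 1)) (by positivity)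
        refine ⟨ν, C, hν, fun U hU => ?_⟩
        have hfr := finrank_eq' ψ hψ1 hψ2
        rw [hfr] at hC
        have he : {P : ℙ K (Fin m → K) | (Good (K := K) f g ∧
            BadC f g S (finrank K (A ⧸ Ideal.span (Set.range g)) - 1 / ((i : ℝ) + 1)) P) ∧
            Height.logHeight P.rep ≤ U} = {P : ℙ K (Fin m → K) |
            BadC f g S (finrank K (A ⧸ Ideal.span (Set.range g)) - 1 / ((i : ℝ) + 1)) P ∧
            Height.logHeight P.rep ≤ U} := by
          ext P
          simp only [Set.mem_ofPred_eq]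
          tauto
        show Set.Finite {P : ℙ K (Fin m → K) | (Good (K := K) f g ∧
            BadC f g S (finrank K (A ⧸ Ideal.span (Set.range g)) - 1 / ((i : ℝ) + 1)) P) ∧
            Height.logHeight P.rep ≤ U} ∧ (Set.ncard {P : ℙ K (Fin m → K) | (Good (K := K) f g ∧
            BadC f g S (finrank K (A ⧸ Ideal.span (Set.range g)) - 1 / ((i : ℝ) + 1)) P) ∧
            Height.logHeight P.rep ≤ U} : ℝ) ≤ _
        rw [he]
        exact hC U hU
      · refine ⟨1, 0, one_pos, fun U hU => ?_⟩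
        have he : {P : ℙ K (Fin m → K) | (Good (K := K) f g ∧
            BadC f g S (finrank K (A ⧸ Ideal.span (Set.range g)) - 1 / ((i : ℝ) + 1)) P) ∧
            Height.logHeight P.rep ≤ U} = ∅ := by
          rw [Set.eq_empty_iff_forall_notMem]
          rintro P ⟨⟨h, _⟩, _⟩
          exact hg h
        show Set.Finite {P : ℙ K (Fin m → K) | (Good (K := K) f g ∧
            BadC f g S (finrank K (A ⧸ Ideal.span (Set.range g)) - 1 / ((i : ℝ) + 1)) P) ∧
            Height.logHeight P.rep ≤ U} ∧ (Set.ncard {P : ℙ K (Fin m → K) | (Good (K := K) f g ∧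
            BadC f g S (finrank K (A ⧸ Ideal.span (Set.range g)) - 1 / ((i : ℝ) + 1)) P) ∧
            Height.logHeight P.rep ≤ U} : ℝ) ≤ _
        rw [he]
        simp
    · by_cases hG : 0 ≤ G ∧ (G : ℝ) * e r + 2 * finrank K[X] A < m
      · have hν : 0 < ((m : ℝ) - ((G : ℝ) * e r + 2 * finrank K[X] A)) / 2 := by
          have := hG.2
          linarith
        obtain ⟨C, hC⟩ := h5 K A m f hf Q r hQ1 hQ2 (G : ℝ) (by exact_mod_cast hG.1) _ hν
        refine ⟨_, C, hν, fun U hU => ?_⟩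
        have he : {P : ℙ K (Fin m → K) | ((0 ≤ G ∧ (G : ℝ) * e r + 2 * finrank K[X] A < m) ∧
            MvPolynomial.eval P.rep Q ≠ 0 ∧ SmD f (G : ℝ) P) ∧ Height.logHeight P.rep ≤ U} =
            {P : ℙ K (Fin m → K) | MvPolynomial.eval P.rep Q ≠ 0 ∧ SmD f (G : ℝ) P ∧
              Height.logHeight P.rep ≤ U} := by
          ext P
          simp only [Set.mem_ofPred_eq]
          tauto
        show Set.Finite {P : ℙ K (Fin m → K) | ((0 ≤ G ∧
            (G : ℝ) * e r + 2 * finrank K[X] A < m) ∧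
            MvPolynomial.eval P.rep Q ≠ 0 ∧ SmD f (G : ℝ) P) ∧ Height.logHeight P.rep ≤ U} ∧
          (Set.ncard {P : ℙ K (Fin m → K) | ((0 ≤ G ∧
            (G : ℝ) * e r + 2 * finrank K[X] A < m) ∧
            MvPolynomial.eval P.rep Q ≠ 0 ∧ SmD f (G : ℝ) P) ∧ Height.logHeight P.rep ≤ U} : ℝ) ≤ _
        rw [he]
        obtain ⟨h7, h8⟩ := hC U hU
        refine ⟨h7, h8.trans (le_of_eq ?_)⟩
        congr 2
        ring
      · refine ⟨1, 0, one_pos, fun U hU => ?_⟩
        have he : {P : ℙ K (Fin m → K) | ((0 ≤ G ∧ (G : ℝ) * e r + 2 * finrank K[X] A < m) ∧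
            MvPolynomial.eval P.rep Q ≠ 0 ∧ SmD f (G : ℝ) P) ∧ Height.logHeight P.rep ≤ U} = ∅ := by
          rw [Set.eq_empty_iff_forall_notMem]
          rintro P ⟨⟨h, _⟩, _⟩
          exact hG h
        show Set.Finite {P : ℙ K (Fin m → K) | ((0 ≤ G ∧
            (G : ℝ) * e r + 2 * finrank K[X] A < m) ∧
            MvPolynomial.eval P.rep Q ≠ 0 ∧ SmD f (G : ℝ) P) ∧ Height.logHeight P.rep ≤ U} ∧
          (Set.ncard {P : ℙ K (Fin m → K) | ((0 ≤ G ∧
            (G : ℝ) * e r + 2 * finrank K[X] A < m) ∧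
            MvPolynomial.eval P.rep Q ≠ 0 ∧ SmD f (G : ℝ) P) ∧ Height.logHeight P.rep ≤ U} : ℝ) ≤ _
        rw [he]
        simp
    · refine ⟨ν4, C4, hν4, fun U hU => ?_⟩
      obtain ⟨h7, h8⟩ := h4' U hU
      exact ⟨h7.subset fun P hP => hP.2, h8⟩)
  -- the finite sets of points of bounded height
  refine ⟨r, E0 ∪ {P | MvPolynomial.eval P.rep Q = 0}, ⟨c0, mem_ne hf hc0, hQ2 c0 hc0Q⟩,
    ⟨1 + |C4| * Real.exp (1 / ν4), fun U hU => ?_⟩, ?_, ?_, ?_⟩
  · -- density zero
    obtain ⟨h7, h8⟩ := h4' U hU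
    obtain ⟨h9, h10⟩ := hE1 U hU
    have he : {P : ℙ K (Fin m → K) | P ∈ E0 ∪ {P | MvPolynomial.eval P.rep Q = 0} ∧
        Height.logHeight P.rep ≤ U} = {P | P ∈ E0 ∧ Height.logHeight P.rep ≤ U} ∪
        {P | MvPolynomial.eval P.rep Q = 0 ∧ Height.logHeight P.rep ≤ U} := by
      ext P
      simp only [Set.mem_union, Set.mem_ofPred_eq]
      tauto
    refine ⟨h7.subset fun P hP => hP.2, ?_⟩
    rw [he]
    have hU1 : (m - ν4) * U ≤ 1 / ν4 + (m * U - √U) := by
      have h11 : √U ≤ ν4 * U + 1 / ν4 := by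
        have hs := Real.sq_sqrt hU
        have h12 : ν4 * √U ≤ (ν4 * √U) ^ 2 + 1 := by nlinarith [sq_nonneg (ν4 * √U - 1 / 2)]
        have h13 : √U * ν4 ≤ (ν4 * U + 1 / ν4) * ν4 := by
          have : (ν4 * U + 1 / ν4) * ν4 = ν4 ^ 2 * U + 1 := by field_simp
          rw [this]
          nlinarith
        exact le_of_mul_le_mul_right h13 hν4
      nlinarith
    calc ((({P | P ∈ E0 ∧ Height.logHeight P.rep ≤ U} ∪
        {P | MvPolynomial.eval P.rep Q = 0 ∧ Height.logHeight P.rep ≤ U} :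
          Set (ℙ K (Fin m → K))).ncard : ℕ) : ℝ) ≤
        ({P : ℙ K (Fin m → K) | P ∈ E0 ∧ Height.logHeight P.rep ≤ U}.ncard : ℝ) +
        ({P : ℙ K (Fin m → K) | MvPolynomial.eval P.rep Q = 0 ∧
          Height.logHeight P.rep ≤ U}.ncard : ℝ) := by
          exact_mod_cast Set.ncard_union_le _ _
      _ ≤ Real.exp (m * U - √U) + C4 * Real.exp ((m - ν4) * U) := add_le_add h10 h8
      _ ≤ Real.exp (m * U - √U) + |C4| * Real.exp (1 / ν4 + (m * U - √U)) := by
          gcongr
          exact le_abs_self C4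
      _ = _ := by rw [Real.exp_add]; ring
  · -- truncated counting functions
    intro q u g hmax hne hL S κ hκ
    obtain ⟨Ss, hSs0, hSs⟩ := h6 K A q u g hmax hne
    obtain ⟨i, hi⟩ := exists_nat_one_div_lt (show (0:ℝ) < κ / (q + 1) by positivity)
    have hind : ∀ j, ∃ U : ℝ, 0 ≤ U ∧ ∀ P : ℙ K (Fin m → K), P ∉ E0 →
        BadC f (g j) (Ss ∪ S) (finrank K (A ⧸ Ideal.span (Set.range (g j))) -
          1 / ((i : ℝ) + 1)) P → Height.logHeight P.rep ≤ U := by
      intro j
      obtain ⟨U, hU0, hU⟩ := hE2 (Sum.inl (⟨u j, g j⟩, Ss ∪ S, i))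
      exact ⟨U, hU0, fun P hP hb => hU P hP ⟨hL j, hb⟩⟩
    choose U hU0 hU using hind
    refine ⟨∑ j, (finrank K (A ⧸ Ideal.span (Set.range (g j))) : ℝ) * U j, ?_⟩
    intro M _ _ _ φ P hPE hφ hker hkne
    have hP0 : P ∉ E0 := fun h => hPE (Or.inl h)
    have hht : 0 ≤ Height.logHeight P.rep := nonneg_ht P
    -- the finite sets
    have hfin : ∀ j, {w : HeightOneSpectrum (𝓞 M) | NearC (Ss ∪ S) (g j) φ w}.Finite := by
      intro j
      have hexi : ∃ i, φ (g j i) ≠ 0 := by
        by_contra hcon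
        push Not at hcon
        have hle : Ideal.span (Set.range (g j)) ≤ RingHom.ker φ := by
          rw [Ideal.span_le]
          rintro _ ⟨i, rfl⟩
          exact hcon i
        have hker_ne : RingHom.ker φ ≠ ⊤ := RingHom.ker_ne_top _
        exact hkne j ((hmax j).eq_of_le hker_ne hle).symm
      obtain ⟨i, hi⟩ := hexi
      exact (val_fin hi).subset fun w hw => hw.2.2 i
    have hbound : ∀ j, ((finrank K (A ⧸ Ideal.span (Set.range (g j))) : ℝ) -
        1 / ((i : ℝ) + 1)) * Height.logHeight P.rep -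
        (finrank K (A ⧸ Ideal.span (Set.range (g j))) : ℝ) * U j ≤
        ∑ w ∈ (hfin j).toFinset, lN w := by
      intro j
      have hd0 : (0 : ℝ) ≤ (finrank K (A ⧸ Ideal.span (Set.range (g j))) : ℝ) := by positivity
      have hs0 : 0 ≤ ∑ w ∈ (hfin j).toFinset, lN w := Finset.sum_nonneg fun w _ => lN_nonneg w
      rcases lt_or_ge (∑ w ∈ (hfin j).toFinset, lN w)
        (((finrank K (A ⧸ Ideal.span (Set.range (g j))) : ℝ) -
        1 / ((i : ℝ) + 1)) * Height.logHeight P.rep) with hlt | hge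
      · have hb : BadC f (g j) (Ss ∪ S) (finrank K (A ⧸ Ideal.span (Set.range (g j))) -
            1 / ((i : ℝ) + 1)) P :=
          ⟨M, inferInstance, inferInstance, inferInstance, φ, hφ, hker, (hfin j).toFinset,
            fun w hw => (hfin j).mem_toFinset.2 hw, hlt⟩
        have h7 := hU j P hP0 hb
        have h8 := mul_le_mul_of_nonneg_left h7 hd0
        have h9 : 0 ≤ 1 / ((i : ℝ) + 1) * Height.logHeight P.rep := by positivity
        rw [sub_mul]
        linarith
      · have h9 : 0 ≤ (finrank K (A ⧸ Ideal.span (Set.range (g j))) : ℝ) * U j :=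
          mul_nonneg hd0 (hU0 j)
        linarith
    have hmono : ∀ (j : Fin q) (w : HeightOneSpectrum (𝓞 M)), NearC (Ss ∪ S) (g j) φ w →
        NearC Ss (g j) φ w ∧ NearC S (g j) φ w := by
      rintro j w ⟨h7, h8, h9⟩
      exact ⟨⟨fun p hp => h7 p (Finset.mem_union_left _ hp), h8, h9⟩,
        ⟨fun p hp => h7 p (Finset.mem_union_right _ hp), h8, h9⟩⟩
    refine ⟨Finset.univ.biUnion fun j => (hfin j).toFinset, ?_, ?_⟩
    · intro w hw
      obtain ⟨j, -, hj⟩ := Finset.mem_biUnion.1 hw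
      exact ⟨j, (hmono j w ((hfin j).mem_toFinset.1 hj)).2⟩
    · rw [Finset.sum_biUnion]
      · have h7 := Finset.sum_le_sum fun j (_ : j ∈ Finset.univ) => hbound j
        rw [Finset.sum_sub_distrib, ← Finset.sum_mul, Finset.sum_sub_distrib] at h7
        simp only [Finset.sum_const, Finset.card_univ, Fintype.card_fin, nsmul_eq_mul] at h7
        have h8 : (q : ℝ) * (1 / ((i : ℝ) + 1)) ≤ κ := by
          have hq : (0 : ℝ) ≤ q := by positivity
          calc (q : ℝ) * (1 / ((i : ℝ) + 1)) ≤ q * (κ / (q + 1)) := by gcongr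
            _ ≤ (q + 1) * (κ / (q + 1)) := by
                gcongr
                linarith
            _ = κ := by field_simp
        have h9 := mul_le_mul_of_nonneg_right h8 hht
        rw [sub_mul] at h7 ⊢
        linarith
      · intro j _ j' _ hjj
        rw [Function.onFun, Finset.disjoint_left]
        intro w hw hw'
        exact hjj (hSs M φ w j j' (hmono j w ((hfin j).mem_toFinset.1 hw)).1
          (hmono j' w ((hfin j').mem_toFinset.1 hw')).1)
  · -- discriminants
    intro G hG0 hG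
    obtain ⟨G', hG1, hG2⟩ : ∃ G' : ℚ, G ≤ G' ∧ (G' : ℝ) * e r + 2 * finrank K[X] A < m := by
      rcases eq_or_lt_of_le (he2 r) with her | her
      · obtain ⟨G', hG'⟩ := exists_rat_gt G
        refine ⟨G', hG'.le, ?_⟩
        rw [← her] at hG ⊢
        linarith
      · have h7 : G < (m - 2 * finrank K[X] A) / e r := by
          rw [lt_div_iff₀ her]
          linarith
        obtain ⟨G', hG1, hG2⟩ := exists_rat_btwn h7
        refine ⟨G', hG1.le, ?_⟩
        rw [lt_div_iff₀ her] at hG2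
        linarith
    have hG'0 : (0 : ℝ) ≤ G' := hG0.trans hG1
    obtain ⟨U, hU0, hU⟩ := hE2 (Sum.inr (Sum.inl G'))
    refine ⟨G * U, ?_⟩
    intro M _ _ _ φ P hPE hφ hker
    have hP0 : P ∉ E0 := fun h => hPE (Or.inl h)
    have hPQ : MvPolynomial.eval P.rep Q ≠ 0 := fun h => hPE (Or.inr h)
    have hht : 0 ≤ Height.logHeight P.rep := nonneg_ht P
    rcases lt_or_ge (Real.log |(discr M : ℝ)|) ((G' : ℝ) * Height.logHeight P.rep) with hlt | hge
    · have h7 : Height.logHeight P.rep ≤ U := hU P hP0 ⟨⟨by exact_mod_cast hG'0, hG2⟩, hPQ,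
        ⟨M, inferInstance, inferInstance, inferInstance, φ, hφ, hker, hlt⟩⟩
      have h8 := mul_le_mul_of_nonneg_left h7 hG0
      have h9 : 0 ≤ Real.log |(discr M : ℝ)| := by
        apply Real.log_nonneg
        have h10 : discr M ≠ 0 := discr_ne_zero M
        have h11 : 1 ≤ |discr M| := Int.one_le_abs h10
        exact_mod_cast h11
      linarith
    · have h8 := mul_le_mul_of_nonneg_right hG1 hht
      have h9 := mul_nonneg hG0 hU0
      linarith
  · -- the height
    obtain ⟨C, hC⟩ := h2 K A m f hf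
    exact ⟨C, fun M _ _ _ φ P hφ hker => hC M φ P.rep hφ hker P.rep_nonzero⟩

end Pool.Agent.N297.CV.MainC
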